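import Mathlib

set_option autoImplicit false

namespace Pool.Agent.Results.MP_6bd626_an.PlaneNoEquivariantProjection

open scoped NNReal

section Defs

variable {X : Type} [NormedAddCommGroup X] [NormedSpace ℝ X]

variable (X) in
/-- `Lip₀(X)`: the real Lipschitz functions on `X` vanishing at `0`. -/
def Lip0 : Submodule ℝ (X → ℝ) where
  carrier := {f | f 0 = 0 ∧ ∃ K : ℝ≥0, LipschitzWith K f}
  zero_mem' := ⟨rfl, 0, LipschitzWith.const 0⟩
  add_mem' := by
    rintro f g ⟨hf, K, hK⟩ ⟨hg, L, hL⟩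
    exact ⟨by simp [hf, hg], K + L, hK.add hL⟩
  smul_mem' := by
    rintro c f ⟨hf, K, hK⟩
    refine ⟨by simp [hf], ‖c‖₊ * K, ?_⟩
    exact (lipschitzWith_smul c).comp hK

/-- The embedding of `X*` into `Lip₀(X)`. -/
def incl (l : X →L[ℝ] ℝ) : Lip0 X := ⟨fun x => l x, by simp, _, l.lipschitz⟩

/-- The action `f ↦ f ∘ g⁻¹` of an automorphism on `Lip₀(X)`. -/
def actLip (g : X ≃L[ℝ] X) (f : Lip0 X) : Lip0 X :=
  ⟨fun x => f.1 (g.symm x), by simp [f.2.1], by
    obtain ⟨K, hK⟩ := f.2.2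
    exact ⟨_, hK.comp g.symm.lipschitz⟩⟩

/-- The action `l ↦ l ∘ g⁻¹` of an automorphism on `X*`. -/
def actDual (g : X ≃L[ℝ] X) (l : X →L[ℝ] ℝ) : X →L[ℝ] ℝ := l.comp (g.symm : X →L[ℝ] X)

/-- The `G`-equivariant dual lifting property of the `G`-space `X`, with action `ρ`: there is a
bounded `G`-equivariant linear projection of `Lip₀(X)` onto `X*`. -/
def EquivariantDualLifting {G : Type} [Group G] (ρ : G →* (X ≃L[ℝ] X)) : Prop :=
  ∃ P : Lip0 X →ₗ[ℝ] (X →L[ℝ] ℝ),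
    (∃ C : ℝ, ∀ (f : Lip0 X) (K : ℝ≥0), LipschitzWith K f.1 → ‖P f‖ ≤ C * K) ∧
    (∀ l : X →L[ℝ] ℝ, P (incl l) = l) ∧
    ∀ (g : G) (f : Lip0 X), P (actLip (ρ g) f) = actDual (ρ g) (P f)

end Defs

/-- `max + min` of three numbers. -/
def S (a b c : ℝ) : ℝ := max (max a b) c + min (min a b) c

theorem S_cyc (a b c : ℝ) : S b c a = S a b c := by
  unfold S
  rw [max_comm (max b c) a, ← max_assoc, min_comm (min b c) a, ← min_assoc]

/-- The values of `S` in the coordinates `u, w`. -/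
noncomputable def T (u w : ℝ) : ℝ :=
  if 0 ≤ u then (if 0 ≤ w then u - w else if 0 ≤ u + w then u + 2 * w else -(2 * u + w))
  else (if 0 ≤ w then (if 0 ≤ u + w then -(2 * u + w) else u + 2 * w) else u - w)

theorem S_eq_T (u w : ℝ) : S (2 * u + w) (w - u) (-u - 2 * w) = T u w := by
  unfold T S
  split_ifs with h1 h2 h3 h2 h3 <;> (try push Not at *)
  · rw [max_eq_left (by linarith : w - u ≤ 2 * u + w), max_eq_left (by linarith),
      min_eq_right (by linarith : w - u ≤ 2 * u + w), min_eq_right (by linarith)]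
    ring
  · rw [max_eq_left (by linarith : w - u ≤ 2 * u + w), max_eq_left (by linarith),
      min_eq_right (by linarith : w - u ≤ 2 * u + w), min_eq_left (by linarith)]
    ring
  · rw [max_eq_left (by linarith : w - u ≤ 2 * u + w), max_eq_right (by linarith),
      min_eq_right (by linarith : w - u ≤ 2 * u + w), min_eq_left (by linarith)]
    ring
  · rw [max_eq_right (by linarith : 2 * u + w ≤ w - u), max_eq_left (by linarith),
      min_eq_left (by linarith : 2 * u + w ≤ w - u), min_eq_right (by linarith)]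
    ring
  · rw [max_eq_right (by linarith : 2 * u + w ≤ w - u), max_eq_left (by linarith),
      min_eq_left (by linarith : 2 * u + w ≤ w - u), min_eq_left (by linarith)]
    ring
  · rw [max_eq_right (by linarith : 2 * u + w ≤ w - u), max_eq_right (by linarith),
      min_eq_left (by linarith : 2 * u + w ≤ w - u), min_eq_left (by linarith)]
    ring

/-- The four term relation. -/
theorem relation (x y : ℝ) :
    S (2 * x + y) (y - x) (-x - 2 * y) + S (x + 3 * y) (-2 * x) (x - 3 * y)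
      - S (3 * y - x) (-x) (2 * x - 3 * y) - S (x + 2 * y) (2 * y - 2 * x) (x - 4 * y) = y := by
  have e1 := S_eq_T x y
  have e2 := S_eq_T (x + y) (y - x)
  have e3 := S_eq_T y (y - x)
  have e4 := S_eq_T x (2 * y - x)
  rw [show 2 * (x + y) + (y - x) = x + 3 * y by ring, show (y - x) - (x + y) = -2 * x by ring,
    show -(x + y) - 2 * (y - x) = x - 3 * y by ring] at e2
  rw [show 2 * y + (y - x) = 3 * y - x by ring, show (y - x) - y = -x by ring,
    show -y - 2 * (y - x) = 2 * x - 3 * y by ring] at e3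
  rw [show 2 * x + (2 * y - x) = x + 2 * y by ring, show (2 * y - x) - x = 2 * y - 2 * x by ring,
    show -x - 2 * (2 * y - x) = x - 4 * y by ring] at e4
  rw [e1, e2, e3, e4]
  unfold T
  split_ifs <;> linarith

/-- The linear automorphism of the plane with matrix `(a b; c d)` of trace `-1` and determinant
`1`; it satisfies `ρ² + ρ + 1 = 0`. -/
def rho (a b c d : ℝ) (h1 : a + d = -1) (h2 : a * d - b * c = 1) : (ℝ × ℝ) ≃ₗ[ℝ] (ℝ × ℝ) where
  toFun v := (a * v.1 + b * v.2, c * v.1 + d * v.2)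
  map_add' u v := by ext <;> simp <;> ring
  map_smul' r v := by ext <;> simp <;> ring
  invFun v := (-v.1 - (a * v.1 + b * v.2), -v.2 - (c * v.1 + d * v.2))
  left_inv v := by
    ext
    · simp only
      linear_combination (-a * v.1 - b * v.2) * h1 + v.1 * h2
    · simp only
      linear_combination (-c * v.1 - d * v.2) * h1 + v.2 * h2
  right_inv v := by
    ext
    · simp only
      linear_combination (-a * v.1 - b * v.2) * h1 + v.1 * h2
    · simp only
      linear_combination (-c * v.1 - d * v.2) * h1 + v.2 * h2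

/-- A Lipschitz function from three functionals. -/
def F (p q r : (ℝ × ℝ) →L[ℝ] ℝ) : Lip0 (ℝ × ℝ) :=
  ⟨fun v => S (p v) (q v) (r v), by simp [S], _,
    ((p.lipschitz.max q.lipschitz).max r.lipschitz).add
      ((p.lipschitz.min q.lipschitz).min r.lipschitz)⟩

/-- If `f` is invariant under some `ρ` with `ρ² + ρ + 1 = 0` then `P f = 0`. -/
theorem P_eq_zero (P : Lip0 (ℝ × ℝ) →ₗ[ℝ] ((ℝ × ℝ) →L[ℝ] ℝ))
    (hP : ∀ (g : (ℝ × ℝ) ≃L[ℝ] (ℝ × ℝ)) (f : Lip0 (ℝ × ℝ)), P (actLip g f) = actDual g (P f))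
    (f : Lip0 (ℝ × ℝ)) (a b c d : ℝ) (h1 : a + d = -1) (h2 : a * d - b * c = 1)
    (hf : ∀ v : ℝ × ℝ, f.1 (a * v.1 + b * v.2, c * v.1 + d * v.2) = f.1 v) : P f = 0 := by
  set g : (ℝ × ℝ) ≃L[ℝ] (ℝ × ℝ) := (rho a b c d h1 h2).toContinuousLinearEquiv with hg
  have hinv : actLip g f = f := by
    apply Subtype.ext
    funext v
    change f.1 (g.symm v) = f.1 v
    have h3 := hf (g.symm v)
    have h4 : (a * (g.symm v).1 + b * (g.symm v).2, c * (g.symm v).1 + d * (g.symm v).2) = v :=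
      g.apply_symm_apply v
    rw [h4] at h3
    exact h3.symm
  have h3 := hP g f
  rw [hinv] at h3
  refine ContinuousLinearMap.ext fun v => ?_
  have h4 : ∀ v, P f v = P f (g.symm v) := fun v => by
    conv_lhs => rw [h3]
    rfl
  have h5 : ∀ v, P f (g v) = P f v := fun v => by
    rw [h4 (g v), g.symm_apply_apply]
  have h6 : g (g v) + g v + v = 0 := by
    change (a * (a * v.1 + b * v.2) + b * (c * v.1 + d * v.2),
      c * (a * v.1 + b * v.2) + d * (c * v.1 + d * v.2)) +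
      (a * v.1 + b * v.2, c * v.1 + d * v.2) + v = 0
    ext
    · simp only [Prod.fst_add, Prod.fst_zero]
      linear_combination (a * v.1 + b * v.2) * h1 - v.1 * h2
    · simp only [Prod.snd_add, Prod.snd_zero]
      linear_combination (c * v.1 + d * v.2) * h1 - v.2 * h2
  have h7 := congrArg (P f) h6
  rw [map_add, map_add, h5, h5, map_zero] at h7
  simp only [ContinuousLinearMap.zero_apply]
  linarith

/-- There is no equivariant linear projection, bounded or not. -/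
theorem no_projection : ¬ ∃ P : Lip0 (ℝ × ℝ) →ₗ[ℝ] ((ℝ × ℝ) →L[ℝ] ℝ),
    (∀ l : (ℝ × ℝ) →L[ℝ] ℝ, P (incl l) = l) ∧
    ∀ (g : (ℝ × ℝ) ≃L[ℝ] (ℝ × ℝ)) (f : Lip0 (ℝ × ℝ)), P (actLip g f) = actDual g (P f) := by
  rintro ⟨P, hid, hP⟩
  let X : (ℝ × ℝ) →L[ℝ] ℝ := ContinuousLinearMap.fst ℝ ℝ ℝ
  let Y : (ℝ × ℝ) →L[ℝ] ℝ := ContinuousLinearMap.snd ℝ ℝ ℝ
  let fA := F ((2 : ℝ) • X + Y) (Y - X) (-X - (2 : ℝ) • Y)
  let fB := F (X + (3 : ℝ) • Y) ((-2 : ℝ) • X) (X - (3 : ℝ) • Y)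
  let fC := F ((3 : ℝ) • Y - X) (-X) ((2 : ℝ) • X - (3 : ℝ) • Y)
  let fD := F (X + (2 : ℝ) • Y) ((2 : ℝ) • Y - (2 : ℝ) • X) (X - (4 : ℝ) • Y)
  have hA : ∀ v, fA.1 v = S (2 * v.1 + v.2) (v.2 - v.1) (-v.1 - 2 * v.2) := fun v => rfl
  have hB : ∀ v, fB.1 v = S (v.1 + 3 * v.2) (-2 * v.1) (v.1 - 3 * v.2) := fun v => rfl
  have hC : ∀ v, fC.1 v = S (3 * v.2 - v.1) (-v.1) (2 * v.1 - 3 * v.2) := fun v => rfl
  have hD : ∀ v, fD.1 v = S (v.1 + 2 * v.2) (2 * v.2 - 2 * v.1) (v.1 - 4 * v.2) := fun v => rfl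
  have zA : P fA = 0 := by
    refine P_eq_zero P hP fA 0 1 (-1) (-1) (by norm_num) (by norm_num) fun v => ?_
    rw [hA, hA, ← S_cyc (2 * v.1 + v.2)]
    simp only
    congr 1 <;> ring
  have zB : P fB = 0 := by
    refine P_eq_zero P hP fB (-1 / 2) (3 / 2) (-1 / 2) (-1 / 2) (by norm_num) (by norm_num)
      fun v => ?_
    rw [hB, hB, ← S_cyc (v.1 + 3 * v.2)]
    simp only
    congr 1 <;> ring
  have zC : P fC = 0 := by
    refine P_eq_zero P hP fC (-2) 3 (-1) 1 (by norm_num) (by norm_num) fun v => ?_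
    rw [hC, hC, ← S_cyc (3 * v.2 - v.1)]
    simp only
    congr 1 <;> ring
  have zD : P fD = 0 := by
    refine P_eq_zero P hP fD (-1) 2 (-1 / 2) 0 (by norm_num) (by norm_num) fun v => ?_
    rw [hD, hD, ← S_cyc (v.1 + 2 * v.2)]
    simp only
    congr 1 <;> ring
  have hrel : fA + fB - fC - fD = incl Y := by
    apply Subtype.ext
    funext v
    change fA.1 v + fB.1 v - fC.1 v - fD.1 v = v.2
    rw [hA, hB, hC, hD]
    exact relation v.1 v.2
  have h1 := congrArg P hrel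
  rw [map_sub, map_sub, map_add, zA, zB, zC, zD, hid] at h1
  have h2 := congrArg (fun l : (ℝ × ℝ) →L[ℝ] ℝ => l (0, 1)) h1
  simp [Y] at h2

/-- The plane, as a `G`-space for the group `G` of all its linear automorphisms, fails the
`G`-equivariant dual lifting property. -/
theorem result :
    ¬ EquivariantDualLifting (X := ℝ × ℝ) (MonoidHom.id ((ℝ × ℝ) ≃L[ℝ] (ℝ × ℝ))) ∧
    ¬ ∃ P : Lip0 (ℝ × ℝ) →ₗ[ℝ] ((ℝ × ℝ) →L[ℝ] ℝ),
      (∀ l : (ℝ × ℝ) →L[ℝ] ℝ, P (incl l) = l) ∧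
      ∀ (g : (ℝ × ℝ) ≃L[ℝ] (ℝ × ℝ)) (f : Lip0 (ℝ × ℝ)), P (actLip g f) = actDual g (P f) := by
  refine ⟨?_, no_projection⟩
  rintro ⟨P, _, h1, h2⟩
  exact no_projection ⟨P, h1, h2⟩

end Pool.Agent.Results.MP_6bd626_an.PlaneNoEquivariantProjection
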